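import Mathlib
import Pool.Agent.Y734.I.Stms

/-!
# Project Y734/I: Krull's principal ideal theorem in terms of transcendence degrees
-/

set_option autoImplicit false

namespace Pool.Agent.Y734.I.DM

open MvPolynomial Pool.Agent.Y734.I

lemma degreeOf_rename_ne {s : ℕ} (i : Fin s) (h : MvPolynomial {j : Fin s // j ≠ i} ℚ) :
    degreeOf i (rename Subtype.val h) = 0 := by
  classical
  rw [← Nat.le_zero, degreeOf_le_iff]
  intro m hm
  rw [support_rename_of_injective Subtype.val_injective] at hm
  obtain ⟨m', -, rfl⟩ := Finset.mem_image.1 hm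
  rw [Finsupp.mapDomain_of_notMem_range]
  rintro ⟨j, hj⟩
  exact j.2 hj

/-- in the quotient of a polynomial ring by a principal ideal all variables but one which occurs
in the generator are algebraically independent -/
lemma indep {s : ℕ} (g : MvPolynomial (Fin s) ℚ) (hg : g ≠ 0) (i : Fin s)
    (hi : degreeOf i g ≠ 0) (I : Ideal (MvPolynomial (Fin s) ℚ)) (hI : I = Ideal.span {g}) :
    AlgebraicIndependent ℚ
      (fun j : {j : Fin s // j ≠ i} => Ideal.Quotient.mk I (X (j : Fin s))) := by
  classical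
  rw [algebraicIndependent_iff]
  intro h hh
  have h1 : aeval (fun j : {j : Fin s // j ≠ i} => Ideal.Quotient.mk I (X (j : Fin s))) h =
      Ideal.Quotient.mk I (rename Subtype.val h) := by
    have h2 : (Ideal.Quotient.mkₐ ℚ I).comp (rename (Subtype.val : {j : Fin s // j ≠ i} → Fin s)) =
        aeval (fun j : {j : Fin s // j ≠ i} => Ideal.Quotient.mk I (X (j : Fin s))) := by
      ext j
      simp
    rw [← h2]
    rfl
  rw [h1, Ideal.Quotient.eq_zero_iff_mem, hI, Ideal.mem_span_singleton] at hh
  obtain ⟨k, hk⟩ := hh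
  by_contra hne
  have hne' : rename Subtype.val h ≠ (0 : MvPolynomial (Fin s) ℚ) := fun h0 =>
    hne (rename_injective _ Subtype.val_injective (by rw [h0, map_zero]))
  have hk0 : k ≠ 0 := by
    rintro rfl
    exact hne' (by rw [hk, mul_zero])
  have h3 := degreeOf_rename_ne i h
  rw [hk, degreeOf_mul_eq hg hk0] at h3
  omega

lemma exists_degreeOf {s : ℕ} (g : MvPolynomial (Fin s) ℚ) (hg : g ≠ 0) (hu : ¬ IsUnit g) :
    ∃ i, degreeOf i g ≠ 0 := by
  classical
  by_contra hcon
  push Not at hcon
  have h1 : g.support ⊆ {0} := by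
    intro m hm
    rw [Finset.mem_singleton]
    ext i
    have := degreeOf_le_iff.1 (hcon i).le m hm
    simpa using this
  have h2 : g = C (coeff 0 g) := by
    ext m
    rw [coeff_C]
    split_ifs with h
    · rw [← h]
    · by_contra h3
      have := h1 (mem_support_iff.2 h3)
      rw [Finset.mem_singleton] at this
      exact h this.symm
  apply hu
  rw [h2]
  refine IsUnit.map C (IsUnit.mk0 _ ?_)
  intro h0
  rw [h0, map_zero] at h2
  exact hg h2

theorem dimq : DimqStmt := by
  classical
  intro A _ _ _ _ f hf Q hQ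
  obtain ⟨s, g, hginj, hgint⟩ := exists_integral_inj_algHom_of_fg ℚ A
  let B := MvPolynomial (Fin s) ℚ
  let : Algebra B A := g.toRingHom.toAlgebra
  have : IsScalarTower ℚ B A := IsScalarTower.of_algebraMap_eq fun x => (g.commutes x).symm
  have : Algebra.IsIntegral B A := ⟨fun x => hgint x⟩
  have : FaithfulSMul B A := (faithfulSMul_iff_algebraMap_injective B A).2 hginj
  have hQp : Q.IsPrime := hQ.1.1
  have htr : Algebra.trdeg ℚ A = s := by
    have h1 : Algebra.trdeg ℚ B + Algebra.trdeg B A = Algebra.trdeg ℚ A := trdeg_add_eq ℚ B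
    have h2 : Algebra.trdeg B A = 0 := trdeg_eq_zero
    rw [← h1, h2, MvPolynomial.trdeg_of_isDomain]
    simp
  rw [htr]
  -- the prime below
  let p : Ideal B := Q.under B
  have : Q.LiesOver p := ⟨rfl⟩
  have hp : p.IsPrime := inferInstance
  have hmap : Algebra.trdeg ℚ (B ⧸ p) ≤ Algebra.trdeg ℚ (A ⧸ Q) := by
    let φ : B ⧸ p →ₐ[ℚ] A ⧸ Q :=
      Ideal.Quotient.liftₐ p ((Ideal.Quotient.mkₐ ℚ Q).comp g) (by
        intro a ha
        exact Ideal.Quotient.eq_zero_iff_mem.2 ha)
    refine trdeg_le_of_injective φ ?_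
    rw [injective_iff_map_eq_zero]
    intro x hx
    obtain ⟨b, rfl⟩ := Ideal.Quotient.mk_surjective x
    have h0 : (Ideal.Quotient.mk Q (g b)) = 0 := hx
    have h1 : g b ∈ Q := Ideal.Quotient.eq_zero_iff_mem.1 h0
    exact Ideal.Quotient.eq_zero_iff_mem.2 h1
  refine le_trans ?_ (add_le_add_left hmap 1)
  by_cases hp0 : p = ⊥
  · have h1 : Algebra.trdeg ℚ B ≤ Algebra.trdeg ℚ (B ⧸ p) := by
      refine trdeg_le_of_injective (Ideal.Quotient.mkₐ ℚ p) ?_
      rw [injective_iff_map_eq_zero]
      intro x hx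
      have : x ∈ p := Ideal.Quotient.eq_zero_iff_mem.1 hx
      rw [hp0] at this
      exact this
    have h2 : Algebra.trdeg ℚ B = s := by
      rw [MvPolynomial.trdeg_of_isDomain]
      simp
    rw [h2] at h1
    exact h1.trans le_self_add
  · obtain ⟨g0, hg0p, hg0⟩ := Ideal.IsPrime.exists_mem_prime_of_ne_bot hp hp0
    have hspan : (Ideal.span {g0}).IsPrime := (Ideal.span_singleton_prime hg0.ne_zero).2 hg0
    have hle : Ideal.span {g0} ≤ p := (Ideal.span_singleton_le_iff_mem _).2 hg0p
    have heq : p = Ideal.span {g0} := by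
      by_contra hne
      have hlt : Ideal.span {g0} < p := lt_of_le_of_ne hle (Ne.symm hne)
      obtain ⟨Q', hQ'lt, hQ'p, hQ'o⟩ := Ideal.exists_ideal_lt_liesOver_of_lt Q hlt
      have hQ0 : Q'.height ≠ 0 := by
        rw [Ne, Ideal.height_eq_zero_iff_eq_bot]
        rintro rfl
        have h1 := hQ'o.over
        have h2 : g0 ∈ (⊥ : Ideal A).under B := by
          rw [← h1]
          exact Ideal.mem_span_singleton_self g0
        have h3 : g g0 = 0 := h2
        exact hg0.ne_zero (hginj (by rw [h3, map_zero]))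
      have : IsNoetherianRing A := Algebra.FiniteType.isNoetherianRing ℚ A
      have h4 := Ideal.height_add_one_le_of_lt_of_isPrime hQ'lt
      have h5 : Q.height ≤ 1 := Ideal.height_le_one_of_isPrincipal_of_mem_minimalPrimes _ Q hQ
      have h6 := h4.trans h5
      have h7 : (1 : ℕ∞) ≤ Q'.height := Order.one_le_iff_ne_zero.2 hQ0
      have h8 := (add_le_add_left h7 1).trans h6
      norm_num at h8
    obtain ⟨i, hi⟩ := exists_degreeOf g0 hg0.ne_zero hg0.not_isUnit
    have h1 := (indep g0 hg0.ne_zero i hi p heq).cardinalMk_le_trdeg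
    have h2 : (s : Cardinal) ≤ Cardinal.mk {j : Fin s // j ≠ i} + 1 := by
      rw [Cardinal.mk_fintype]
      have h3 : Fintype.card {j : Fin s // j ≠ i} = s - 1 := by
        rw [Fintype.card_subtype_compl, Fintype.card_fin]
        simp
      rw [h3]
      have h4 : s ≤ s - 1 + 1 := by
        have := i.2
        omega
      exact_mod_cast h4
    exact h2.trans (add_le_add_left h1 1)

end Pool.Agent.Y734.I.DM
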